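import Pool.Agent.Helper10.AB.GoalsF2
import Pool.Agent.Helper49.Abund.Mean2

/-!
# Project AB (MP_1ef41b_an), packet BOX: mean value inequalities
-/

open MeasureTheory Set Filter Topology
open scoped ContDiff

noncomputable section

namespace Pool.Agent.Helper40.AB

open Pool.Agent.Helper24.AB Pool.Agent.Helper10.AB

theorem box1 (g : ℂ → ℂ) (w₀ : ℂ) (ρ : ℝ) (hρ : 0 < ρ)
    (hg : DifferentiableOn ℂ g (Metric.ball w₀ (2 * ρ))) :
    ‖g w₀‖ ^ 2 * (Real.pi * ρ ^ 2) ≤ ∫ w in Metric.ball w₀ ρ, ‖g w‖ ^ 2 := by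
  have hsub : Metric.closedBall w₀ ρ ⊆ Metric.ball w₀ (2 * ρ) :=
    Metric.closedBall_subset_ball (by linarith)
  have hc : ContinuousOn (fun w => ‖g w‖ ^ 2) (Metric.closedBall w₀ ρ) :=
    ((hg.continuousOn.mono hsub).norm).pow 2
  have hi : IntegrableOn (fun w => ‖g w‖ ^ 2) (Metric.ball w₀ ρ) :=
    (hc.integrableOn_compact (isCompact_closedBall w₀ ρ)).mono_set Metric.ball_subset_closedBall
  have h1 := Pool.Agent.Helper49.Abund.disc_mean (f := g) (c := w₀) (r := ρ)
    (hg.mono (Metric.ball_subset_ball (by linarith))) (q := 2) two_pos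
  have h2 : ∀ w, ‖g w‖ ^ (2 : ℝ) = ‖g w‖ ^ 2 := fun w => by norm_cast
  simp only [h2] at h1
  rw [← ofReal_integral_eq_lintegral_ofReal hi (Eventually.of_forall fun w => by positivity),
    Complex.volume_ball] at h1
  have h3 : ENNReal.ofReal (‖g w₀‖ ^ 2) * (ENNReal.ofReal ρ ^ 2 * NNReal.pi) =
      ENNReal.ofReal (‖g w₀‖ ^ 2 * (Real.pi * ρ ^ 2)) := by
    rw [ENNReal.ofReal_mul (by positivity), ENNReal.ofReal_mul Real.pi_pos.le,
      ENNReal.ofReal_pow hρ.le, mul_comm (ENNReal.ofReal Real.pi)]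
    congr 2
    rw [← NNReal.coe_real_pi, ENNReal.ofReal_coe_nnreal]
  rw [h3] at h1
  exact (ENNReal.ofReal_le_ofReal_iff (integral_nonneg fun w => by positivity)).1 h1

theorem box2 (J : Fin 3 → ℤ) (X₀ : Fin 3 → ℝ) (ρ : ℝ) (hρ : 0 < ρ) :
    Real.exp (2 * Jd J X₀) * (2 * ρ) ^ 3 ≤
      ∫ X in {X : Fin 3 → ℝ | ∀ i, |X i - X₀ i| ≤ ρ}, Real.exp (2 * Jd J X) := by
  set S : Set (Fin 3 → ℝ) := {X | ∀ i, |X i - X₀ i| ≤ ρ} with hSdef
  have hS : S = Icc (fun i => X₀ i - ρ) (fun i => X₀ i + ρ) := by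
    ext X
    simp only [hSdef, mem_setOf_eq, mem_Icc, Pi.le_def, abs_le]
    constructor
    · intro h
      exact ⟨fun i => by linarith [(h i).1], fun i => by linarith [(h i).2]⟩
    · rintro ⟨h1, h2⟩ i
      exact ⟨by linarith [h1 i], by linarith [h2 i]⟩
  have hSm : MeasurableSet S := by rw [hS]; exact measurableSet_Icc
  have hvol : volume.real S = (2 * ρ) ^ 3 := by
    rw [hS, Measure.real, Real.volume_Icc_pi_toReal]
    · simp [Fin.prod_univ_three]; ring
    · intro i; simp only; linarith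
  have hcont : Continuous fun X : Fin 3 → ℝ => Real.exp (2 * Jd J X) := by
    unfold Jd; fun_prop
  have hint : IntegrableOn (fun X : Fin 3 → ℝ => Real.exp (2 * Jd J X)) S := by
    rw [hS]; exact hcont.integrableOn_Icc
  set F : (Fin 3 → ℝ) → ℝ := S.indicator fun X => Real.exp (2 * Jd J X) with hF
  have hFi : Integrable F := (integrable_indicator_iff hSm).2 hint
  have hFi2 : Integrable fun X => F ((2 : ℝ) • X₀ - X) := hFi.comp_sub_left _
  have hrefl : ∫ X, F ((2 : ℝ) • X₀ - X) = ∫ X, F X := integral_sub_left_eq_self F volume _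
  have hmem : ∀ X, (2 : ℝ) • X₀ - X ∈ S ↔ X ∈ S := by
    intro X
    simp only [hSdef, mem_setOf_eq, Pi.sub_apply, Pi.smul_apply, smul_eq_mul]
    refine forall_congr' fun i => ?_
    rw [show 2 * X₀ i - X i - X₀ i = -(X i - X₀ i) by ring, abs_neg]
  have hle : ∀ X, S.indicator (fun _ => 2 * Real.exp (2 * Jd J X₀)) X ≤
      F X + F ((2 : ℝ) • X₀ - X) := by
    intro X
    by_cases hX : X ∈ S
    · rw [indicator_of_mem hX, hF, indicator_of_mem hX, indicator_of_mem ((hmem X).2 hX)]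
      have e1 : 2 * Jd J ((2 : ℝ) • X₀ - X) = 2 * Jd J X₀ - 2 * (Jd J X - Jd J X₀) := by
        simp only [Jd, Pi.sub_apply, Pi.smul_apply, smul_eq_mul]; ring
      have e2 : 2 * Jd J X = 2 * Jd J X₀ + 2 * (Jd J X - Jd J X₀) := by ring
      rw [e1]
      conv_rhs => rw [e2]
      set u := 2 * (Jd J X - Jd J X₀)
      rw [Real.exp_add, Real.exp_sub]
      have h1 := Real.add_one_le_exp u
      have h2 := Real.add_one_le_exp (-u)
      rw [Real.exp_neg] at h2
      have h3 : 2 ≤ Real.exp u + (Real.exp u)⁻¹ := by linarith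
      have h4 := Real.exp_pos (2 * Jd J X₀)
      rw [div_eq_mul_inv]
      nlinarith
    · rw [indicator_of_notMem hX, hF, indicator_of_notMem hX,
        indicator_of_notMem (fun h => hX ((hmem X).1 h))]
      simp
  have h1 := integral_mono ((integrable_indicator_iff hSm).2 (integrableOn_const (by
    rw [hS]; exact isCompact_Icc.measure_lt_top.ne))) (hFi.add hFi2) hle
  have h2 : ∫ X, (F X + F ((2 : ℝ) • X₀ - X)) = 2 * ∫ X in S, Real.exp (2 * Jd J X) := by
    rw [integral_add hFi hFi2, hrefl, hF, integral_indicator hSm]; ring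
  rw [integral_indicator hSm, setIntegral_const, hvol] at h1
  change _ ≤ ∫ X, (F X + F ((2 : ℝ) • X₀ - X)) at h1
  rw [h2, smul_eq_mul] at h1
  linarith

/-- PACKET BOX. -/
theorem box : S_BOX := ⟨box1, box2⟩

end Pool.Agent.Helper40.AB
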