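import Pool.Agent.Helper10.AB.GoalsF1

/-!
# Project AB (MP_1ef41b_an), packet GDK: from `∂_t^k (e^{-Φ}g)` to `e^{-Φ} g^{(k)}`
-/

open MeasureTheory Set Filter Topology
open scoped ContDiff

noncomputable section

namespace Pool.Agent.Helper40.AB

open Pool.Agent.Helper24.AB

theorem isOpen_strip (a : ℝ) : IsOpen (strip a) :=
  isOpen_lt (continuous_abs.comp Complex.continuous_re) continuous_const

section cc
variable {E : Type*} [NormedAddCommGroup E] [NormedSpace ℝ E]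

theorem dT_congr {U : Set ℂ} (hU : IsOpen U) {f g : ℂ → E} (h : EqOn f g U) :
    EqOn (dT f) (dT g) U := by
  intro w hw
  have : f =ᶠ[𝓝 w] g := Filter.eventuallyEq_of_mem (hU.mem_nhds hw) h
  unfold dT
  rw [this.fderiv_eq]

theorem dT_iter_congr {U : Set ℂ} (hU : IsOpen U) {f g : ℂ → E} (h : EqOn f g U) (m : ℕ) :
    EqOn (dT^[m] f) (dT^[m] g) U := by
  induction m with
  | zero => exact h
  | succ m ih =>
    rw [Function.iterate_succ_apply', Function.iterate_succ_apply']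
    exact dT_congr hU ih

theorem dT_smooth {U : Set ℂ} (hU : IsOpen U) {f : ℂ → E} (h : ContDiffOn ℝ ∞ f U) :
    ContDiffOn ℝ ∞ (dT f) U := by
  have h1 : ContDiffOn ℝ ∞ (fun w => fderiv ℝ f w) U :=
    h.fderiv_of_isOpen hU (by norm_cast)
  exact h1.clm_apply contDiffOn_const

theorem dT_iter_smooth {U : Set ℂ} (hU : IsOpen U) {f : ℂ → E} (h : ContDiffOn ℝ ∞ f U) (m : ℕ) :
    ContDiffOn ℝ ∞ (dT^[m] f) U := by
  induction m with
  | zero => exact h
  | succ m ih =>
    rw [Function.iterate_succ_apply']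
    exact dT_smooth hU ih

theorem smooth_hasFDerivAt {U : Set ℂ} (hU : IsOpen U) {f : ℂ → E} (h : ContDiffOn ℝ ∞ f U)
    {w : ℂ} (hw : w ∈ U) : HasFDerivAt f (fderiv ℝ f w) w :=
  ((h.contDiffAt (hU.mem_nhds hw)).differentiableAt (by simp)).hasFDerivAt

theorem dT_add {U : Set ℂ} (hU : IsOpen U) {f g : ℂ → E} (hf : ContDiffOn ℝ ∞ f U)
    (hg : ContDiffOn ℝ ∞ g U) : EqOn (dT fun w => f w + g w) (fun w => dT f w + dT g w) U := by
  intro w hw
  have h := ((smooth_hasFDerivAt hU hf hw).add (smooth_hasFDerivAt hU hg hw)).fderiv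
  change fderiv ℝ (f + g) w Complex.I = _
  rw [h]; rfl

theorem dT_iter_add {U : Set ℂ} (hU : IsOpen U) {f g : ℂ → E} (hf : ContDiffOn ℝ ∞ f U)
    (hg : ContDiffOn ℝ ∞ g U) (m : ℕ) :
    EqOn (dT^[m] fun w => f w + g w) (fun w => dT^[m] f w + dT^[m] g w) U := by
  induction m with
  | zero => exact fun w _ => rfl
  | succ m ih =>
    rw [Function.iterate_succ_apply', Function.iterate_succ_apply', Function.iterate_succ_apply']
    refine (dT_congr hU ih).trans ?_
    exact dT_add hU (dT_iter_smooth hU hf m) (dT_iter_smooth hU hg m)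

end cc

theorem dT_mul {U : Set ℂ} (hU : IsOpen U) {f g : ℂ → ℂ} (hf : ContDiffOn ℝ ∞ f U)
    (hg : ContDiffOn ℝ ∞ g U) :
    EqOn (dT fun w => f w * g w) (fun w => dT f w * g w + f w * dT g w) U := by
  intro w hw
  have h := ((smooth_hasFDerivAt hU hf hw).mul (smooth_hasFDerivAt hU hg hw)).fderiv
  change fderiv ℝ (f * g) w Complex.I = _
  rw [h]
  simp [dT]
  ring

theorem dT_ofReal {U : Set ℂ} (hU : IsOpen U) {f : ℂ → ℝ} (hf : ContDiffOn ℝ ∞ f U) :
    EqOn (dT fun w => (f w : ℂ)) (fun w => ((dT f w : ℝ) : ℂ)) U := by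
  intro w hw
  have h := (Complex.ofRealCLM.hasFDerivAt.comp w (smooth_hasFDerivAt hU hf hw)).fderiv
  change fderiv ℝ (Complex.ofRealCLM ∘ f) w Complex.I = _
  rw [h]; rfl

theorem ofReal_smooth {U : Set ℂ} {f : ℂ → ℝ} (hf : ContDiffOn ℝ ∞ f U) :
    ContDiffOn ℝ ∞ (fun w => (f w : ℂ)) U :=
  Complex.ofRealCLM.contDiff.comp_contDiffOn hf

theorem dT_iter_ofReal {U : Set ℂ} (hU : IsOpen U) {f : ℂ → ℝ} (hf : ContDiffOn ℝ ∞ f U) (m : ℕ) :
    EqOn (dT^[m] fun w => (f w : ℂ)) (fun w => ((dT^[m] f w : ℝ) : ℂ)) U := by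
  induction m with
  | zero => exact fun w _ => rfl
  | succ m ih =>
    rw [Function.iterate_succ_apply', Function.iterate_succ_apply']
    refine (dT_congr hU ih).trans ?_
    exact dT_ofReal hU (dT_iter_smooth hU hf m)

/-! ## Rapid and polynomial families -/

theorem urap_congr {a : ℝ} {ι : Type} {W : ι → ℝ → ℝ} {X Y : ι → ℂ → ℂ}
    (h : ∀ j, EqOn (X j) (Y j) (strip a)) (hX : URap a W X) : URap a W Y := by
  have hae : ∀ j, X j =ᵐ[muS a] Y j := fun j =>
    (ae_restrict_iff' (isOpen_strip a).measurableSet).2 (Eventually.of_forall fun w hw => h j hw)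
  refine ⟨fun j => (hX.1 j).congr (hae j), fun N => ?_⟩
  obtain ⟨C, hC⟩ := hX.2 N
  refine ⟨C, fun j => ?_⟩
  rw [← eLpNorm_congr_ae (f := fun w => ((W j w.im) ^ N : ℝ) • X j w)]
  · exact hC j
  · filter_upwards [hae j] with w hw
    rw [hw]

/-- smooth families all of whose `t`-derivatives are rapid -/
structure Rr (a : ℝ) {ι : Type} (W : ι → ℝ → ℝ) (X : ι → ℂ → ℂ) : Prop where
  smooth : ∀ j, ContDiffOn ℝ ∞ (X j) (strip a)
  rap : ∀ m : ℕ, URap a W (fun j => dT^[m] (X j))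

/-- smooth families all of whose `t`-derivatives are polynomial -/
structure Pp (a : ℝ) {ι : Type} (W : ι → ℝ → ℝ) (X : ι → ℂ → ℂ) : Prop where
  smooth : ∀ j, ContDiffOn ℝ ∞ (X j) (strip a)
  pol : ∀ m : ℕ, ∃ (C : ℝ) (N : ℕ), ∀ j, ∀ w ∈ strip a, ‖dT^[m] (X j) w‖ ≤ C * W j w.im ^ N

variable {a : ℝ} {ι : Type} {W : ι → ℝ → ℝ}

theorem Rr.congr {X Y : ι → ℂ → ℂ} (hX : Rr a W X) (h : ∀ j, EqOn (Y j) (X j) (strip a)) :
    Rr a W Y where
  smooth j := (hX.smooth j).congr fun w hw => h j hw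
  rap m := urap_congr (fun j => (dT_iter_congr (isOpen_strip a) (h j) m).symm) (hX.rap m)

theorem Rr.dT {X : ι → ℂ → ℂ} (hX : Rr a W X) : Rr a W (fun j => dT (X j)) where
  smooth j := dT_smooth (isOpen_strip a) (hX.smooth j)
  rap m := by
    have := hX.rap (m + 1)
    simpa only [Function.iterate_succ_apply] using this

theorem Pp.dT {X : ι → ℂ → ℂ} (hX : Pp a W X) : Pp a W (fun j => dT (X j)) where
  smooth j := dT_smooth (isOpen_strip a) (hX.smooth j)
  pol m := by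
    have := hX.pol (m + 1)
    simpa only [Function.iterate_succ_apply] using this

theorem Rr.add (hU : S_URAP) (ha : 0 < a) (hW : IsWt W) {X Y : ι → ℂ → ℂ} (hX : Rr a W X)
    (hY : Rr a W Y) : Rr a W (fun j w => X j w + Y j w) where
  smooth j := (hX.smooth j).add (hY.smooth j)
  rap m := urap_congr (fun j => (dT_iter_add (isOpen_strip a) (hX.smooth j) (hY.smooth j) m).symm)
    ((hU a ι W ha hW).1 _ _ (hX.rap m) (hY.rap m))

theorem urap_mul (hU : S_URAP) (ha : 0 < a) (hW : IsWt W) (m : ℕ) : ∀ {c X : ι → ℂ → ℂ},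
    Pp a W c → Rr a W X → URap a W (fun j => dT^[m] fun w => c j w * X j w) := by
  induction m with
  | zero =>
    intro c X hc hX
    refine (hU a ι W ha hW).2.2.1 c X ⟨fun j => (hc.smooth j).continuousOn, hc.pol 0⟩ (hX.rap 0)
  | succ m ih =>
    intro c X hc hX
    have h1 := ih hc.dT hX
    have h2 := ih hc hX.dT
    refine urap_congr (fun j => ?_) ((hU a ι W ha hW).1 _ _ h1 h2)
    have hO := isOpen_strip a
    have e1 := dT_iter_congr hO (dT_mul hO (hc.smooth j) (hX.smooth j)) m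
    have e2 := dT_iter_add hO ((dT_smooth hO (hc.smooth j)).mul (hX.smooth j))
      ((hc.smooth j).mul (dT_smooth hO (hX.smooth j))) m
    intro w hw
    have e3 := e1 hw
    have e4 := e2 hw
    change _ = dT^[m] (Pool.Agent.Helper24.AB.dT fun w => c j w * X j w) w
    rw [e3, e4]

theorem Rr.mul (hU : S_URAP) (ha : 0 < a) (hW : IsWt W) {c X : ι → ℂ → ℂ} (hc : Pp a W c)
    (hX : Rr a W X) : Rr a W (fun j w => c j w * X j w) where
  smooth j := (hc.smooth j).mul (hX.smooth j)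
  rap m := urap_mul hU ha hW m hc hX

theorem dT_iter_const (c : ℂ) (m : ℕ) : dT^[m] (fun _ : ℂ => c) = if m = 0 then fun _ => c
    else fun _ => 0 := by
  induction m with
  | zero => simp
  | succ m ih =>
    rw [Function.iterate_succ_apply', ih]
    have h0 : ∀ d : ℂ, dT (fun _ : ℂ => d) = fun _ => 0 := by
      intro d
      funext w
      simp [Pool.Agent.Helper24.AB.dT]
    rw [if_neg (Nat.succ_ne_zero m)]
    split_ifs with h1
    · exact h0 c
    · exact h0 0

theorem Pp.const (c : ℂ) : Pp a W (fun _ _ => c) where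
  smooth j := contDiffOn_const
  pol m := by
    refine ⟨‖c‖, 0, fun j w _ => ?_⟩
    rw [dT_iter_const]
    split_ifs <;> simp

/-! ## The packet -/

theorem dT_holo {U : Set ℂ} (hU : IsOpen U) {h : ℂ → ℂ} (hh : DifferentiableOn ℂ h U) :
    EqOn (dT h) (fun w => Complex.I * deriv h w) U := by
  intro w hw
  have h1 : HasDerivAt h (deriv h w) w := (hh.differentiableAt (hU.mem_nhds hw)).hasDerivAt
  have h2 := h1.complexToReal_fderiv.fderiv
  unfold Pool.Agent.Helper24.AB.dT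
  rw [h2]
  simp [mul_comm]

theorem dT_expneg {U : Set ℂ} (hU : IsOpen U) {Φ : ℂ → ℝ} (hΦ : ContDiffOn ℝ ∞ Φ U) :
    EqOn (dT fun w => ((Real.exp (-(Φ w)) : ℝ) : ℂ))
      (fun w => -((dT Φ w : ℝ) : ℂ) * ((Real.exp (-(Φ w)) : ℝ) : ℂ)) U := by
  have hs : ContDiffOn ℝ ∞ (fun w => Real.exp (-(Φ w))) U := hΦ.neg.exp
  intro w hw
  rw [dT_ofReal hU hs hw]
  have h1 := ((smooth_hasFDerivAt hU hΦ hw).neg.exp).fderiv
  have h2 : dT (fun w => Real.exp (-(Φ w))) w = -(dT Φ w) * Real.exp (-(Φ w)) := by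
    change fderiv ℝ (fun x => Real.exp ((-Φ) x)) w Complex.I = _
    rw [h1]
    simp [Pool.Agent.Helper24.AB.dT]
    ring
  simp only [h2]
  push_cast
  ring

/-- PACKET GDK. -/
theorem gdk : S_URAP → Pool.Agent.Helper10.AB.S_GDK := by
  intro hU a ι Φ W g ha hW hΦ hg hb hG
  have hO := isOpen_strip a
  have hE : ∀ j, ContDiffOn ℝ ∞ (fun w => ((Real.exp (-(Φ j w)) : ℝ) : ℂ)) (strip a) := fun j =>
    ofReal_smooth (hΦ j).neg.exp
  have hgk : ∀ k j, DifferentiableOn ℂ (deriv^[k] (g j)) (strip a) := by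
    intro k
    induction k with
    | zero => exact hg
    | succ k ih =>
      intro j
      rw [Function.iterate_succ_apply']
      exact (ih j).deriv hO
  have hgs : ∀ k j, ContDiffOn ℝ ∞ (deriv^[k] (g j)) (strip a) := fun k j =>
    (DifferentiableOn.contDiffOn (hgk k j) hO (n := ∞)).restrict_scalars ℝ
  have hPt : Pp a W (fun j w => ((dT (Φ j) w : ℝ) : ℂ)) := by
    refine ⟨fun j => ofReal_smooth (dT_smooth hO (hΦ j)), fun m => ?_⟩
    obtain ⟨C, N, hC⟩ := hb (m + 1) (by omega)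
    refine ⟨C, N, fun j w hw => ?_⟩
    rw [dT_iter_ofReal hO (dT_smooth hO (hΦ j)) m hw, Complex.norm_real, Real.norm_eq_abs]
    exact hC j w hw
  have main : ∀ k, Rr a W (fun j w => ((Real.exp (-(Φ j w)) : ℝ) : ℂ) * deriv^[k] (g j) w) := by
    intro k
    induction k with
    | zero => exact ⟨fun j => (hE j).mul (hgs 0 j), hG⟩
    | succ k ih =>
      have h1 : Rr a W (fun j w => (-Complex.I) *
          (dT (fun w => ((Real.exp (-(Φ j w)) : ℝ) : ℂ) * deriv^[k] (g j) w) w +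
            ((dT (Φ j) w : ℝ) : ℂ) * (((Real.exp (-(Φ j w)) : ℝ) : ℂ) * deriv^[k] (g j) w))) :=
        Rr.mul hU ha hW (Pp.const _) (Rr.add hU ha hW ih.dT (Rr.mul hU ha hW hPt ih))
      refine h1.congr fun j w hw => ?_
      change ((Real.exp (-(Φ j w)) : ℝ) : ℂ) * deriv^[k + 1] (g j) w = (-Complex.I) *
          (dT (fun w => ((Real.exp (-(Φ j w)) : ℝ) : ℂ) * deriv^[k] (g j) w) w +
            ((dT (Φ j) w : ℝ) : ℂ) * (((Real.exp (-(Φ j w)) : ℝ) : ℂ) * deriv^[k] (g j) w))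
      rw [dT_mul hO (hE j) (hgs k j) hw, Function.iterate_succ_apply']
      simp only
      rw [dT_expneg hO (hΦ j) hw, dT_holo hO (hgk k j) hw]
      linear_combination (((Real.exp (-(Φ j w)) : ℝ) : ℂ) * deriv (deriv^[k] (g j)) w) *
        Complex.I_mul_I
  exact fun k => (main k).rap 0

end Pool.Agent.Helper40.AB
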