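import Pool.Agent.Helper95.AB.GoalsX

/-!
# Project AB (MP_1ef41b_an), packet HOLO: series of exponentials
-/

open MeasureTheory Set Filter Topology
open scoped ContDiff

noncomputable section

namespace Pool.Agent.Helper40.AB

open Pool.Agent.Helper24.AB Pool.Agent.Helper10.AB Pool.Agent.Helper95.AB

theorem summable_wt : Summable fun n : ℤ => ((1 + |(n : ℝ)|) ^ 2)⁻¹ := by
  have h1 : Summable fun n : ℤ => 1 / (n : ℝ) ^ 2 := Real.summable_one_div_int_pow.2 (by norm_num)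
  have h2 : Summable fun n : ℤ => if n = 0 then (1 : ℝ) else 0 := (hasSum_ite_eq 0 1).summable
  refine Summable.of_nonneg_of_le (fun n => by positivity) (fun n => ?_) (h1.add h2)
  by_cases hn : n = 0
  · subst hn; simp
  · rw [if_neg hn, add_zero, one_div]
    have h3 : (0 : ℝ) < |(n : ℝ)| := abs_pos.2 (by exact_mod_cast hn)
    refine inv_anti₀ ?_ ?_
    · rw [← sq_abs]; positivity
    · rw [← sq_abs (n : ℝ)]
      nlinarith

theorem isOpen_strip' (a : ℝ) : IsOpen (strip a) :=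
  isOpen_lt (continuous_abs.comp Complex.continuous_re) continuous_const

theorem holo_key {a : ℝ} {c : ℤ → ℂ} (h : ∀ b, 0 < b → b < a → ∀ j : ℕ, ∃ C : ℝ, ∀ (n : ℤ) (σ : ℝ),
    |σ| ≤ b → ‖c n‖ * Real.exp (n * σ) * (1 + |(n : ℝ)|) ^ j ≤ C) (k : ℕ) {w : ℂ}
    (hw : w ∈ strip a) : Summable (fun n : ℤ => c n * (n : ℂ) ^ k * Complex.exp (n * w)) ∧
    HasDerivAt (fun z => ∑' n : ℤ, c n * (n : ℂ) ^ k * Complex.exp (n * z))
      (∑' n : ℤ, c n * (n : ℂ) ^ (k + 1) * Complex.exp (n * w)) w := by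
  have hwa : |w.re| < a := hw
  obtain ⟨δ, hδ⟩ : ∃ δ, δ = (a - |w.re|) / 2 := ⟨_, rfl⟩
  have hδ0 : 0 < δ := by rw [hδ]; linarith
  have hb0 : 0 < |w.re| + δ := by have := abs_nonneg w.re; linarith
  have hba : |w.re| + δ < a := by rw [hδ]; linarith
  have hball : ∀ z ∈ Metric.ball w δ, |z.re| ≤ |w.re| + δ := by
    intro z hz
    have h1 : |(z - w).re| ≤ ‖z - w‖ := Complex.abs_re_le_norm _
    have h2 : ‖z - w‖ < δ := by rwa [Metric.mem_ball, dist_eq_norm] at hz
    rw [Complex.sub_re] at h1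
    have h3 := abs_sub_abs_le_abs_sub z.re w.re
    linarith
  have hbound : ∀ m : ℕ, ∃ C : ℝ, ∀ n : ℤ, ∀ z ∈ Metric.ball w δ,
      ‖c n * (n : ℂ) ^ m * Complex.exp (n * z)‖ ≤ C * ((1 + |(n : ℝ)|) ^ 2)⁻¹ := by
    intro m
    obtain ⟨C, hC⟩ := h _ hb0 hba (m + 2)
    refine ⟨C, fun n z hz => ?_⟩
    have h1 := hC n z.re (hball z hz)
    have hpos : (0 : ℝ) < (1 + |(n : ℝ)|) ^ 2 := by positivity
    rw [le_mul_inv_iff₀ hpos]
    refine le_trans ?_ h1
    rw [norm_mul, norm_mul, norm_pow, Complex.norm_exp, Complex.norm_intCast]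
    have h2 : ((n : ℂ) * z).re = n * z.re := by simp
    rw [h2, pow_add]
    have h3 : |(n : ℝ)| ^ m ≤ (1 + |(n : ℝ)|) ^ m :=
      pow_le_pow_left₀ (abs_nonneg _) (by linarith) m
    calc ‖c n‖ * |(n : ℝ)| ^ m * Real.exp (n * z.re) * (1 + |(n : ℝ)|) ^ 2
        ≤ ‖c n‖ * (1 + |(n : ℝ)|) ^ m * Real.exp (n * z.re) * (1 + |(n : ℝ)|) ^ 2 := by gcongr
      _ = _ := by ring
  have hmem : w ∈ Metric.ball w δ := Metric.mem_ball_self hδ0
  obtain ⟨C0, hC0⟩ := hbound k
  obtain ⟨C1, hC1⟩ := hbound (k + 1)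
  have hs : Summable (fun n : ℤ => c n * (n : ℂ) ^ k * Complex.exp (n * w)) :=
    Summable.of_norm_bounded (summable_wt.mul_left C0) fun n => hC0 n w hmem
  refine ⟨hs, ?_⟩
  refine hasDerivAt_tsum_of_isPreconnected (u := fun n : ℤ => C1 * ((1 + |(n : ℝ)|) ^ 2)⁻¹)
    (g := fun (n : ℤ) z => c n * (n : ℂ) ^ k * Complex.exp (n * z))
    (g' := fun (n : ℤ) z => c n * (n : ℂ) ^ (k + 1) * Complex.exp (n * z)) (t := Metric.ball w δ)
    (y₀ := w) (summable_wt.mul_left C1) Metric.isOpen_ball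
    (convex_ball w δ).isPreconnected ?_ (fun n z hz => hC1 n z hz) hmem hs hmem
  intro n z _
  have h1 : HasDerivAt (fun z : ℂ => Complex.exp (n * z)) (Complex.exp (n * z) * n) z := by
    have := ((hasDerivAt_id z).const_mul (n : ℂ)).cexp
    simpa using this
  refine (h1.const_mul (c n * (n : ℂ) ^ k)).congr_deriv ?_
  ring

/-- PACKET HOLO. -/
theorem holo : S_HOLO := by
  intro a c _ h
  have hg : ∀ w, gser c w = ∑' n : ℤ, c n * (n : ℂ) ^ 0 * Complex.exp (n * w) := by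
    intro w
    simp [gser]
  have hg' : gser c = fun w => ∑' n : ℤ, c n * (n : ℂ) ^ 0 * Complex.exp (n * w) := funext hg
  refine ⟨?_, ?_, ?_⟩
  · intro w hw
    rw [hg']
    exact (holo_key h 0 hw).2.differentiableAt.differentiableWithinAt
  · intro w
    unfold gser
    refine tsum_congr fun n => ?_
    rw [mul_add, Complex.exp_add]
    have : Complex.exp ((n : ℂ) * (2 * Real.pi * Complex.I)) = 1 := by
      rw [Complex.exp_eq_one_iff]
      exact ⟨n, rfl⟩
    rw [this, mul_one]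
  · have main : ∀ k : ℕ, ∀ w ∈ strip a, deriv^[k] (gser c) w =
        ∑' n : ℤ, c n * (n : ℂ) ^ k * Complex.exp (n * w) := by
      intro k
      induction k with
      | zero => exact fun w _ => hg w
      | succ k ih =>
        intro w hw
        rw [Function.iterate_succ_apply']
        have h1 : deriv^[k] (gser c) =ᶠ[𝓝 w]
            fun z => ∑' n : ℤ, c n * (n : ℂ) ^ k * Complex.exp (n * z) :=
          Filter.eventuallyEq_of_mem ((isOpen_strip' a).mem_nhds hw) ih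
        rw [h1.deriv_eq]
        exact (holo_key h k hw).2.deriv
    intro k w hw
    rw [main k w hw]
    exact (holo_key h k hw).1.hasSum

end Pool.Agent.Helper40.AB
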