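import Pool.Agent.Helper95.AB.GoalsX

/-!
# Project AB (MP_1ef41b_an), packet LUB: local bound of the exponentials by the norms
-/

open MeasureTheory Set Filter Topology
open scoped ContDiff

noncomputable section

namespace Pool.Agent.Helper40.AB

open Pool.Agent.Helper24.AB Pool.Agent.Helper10.AB Pool.Agent.Helper95.AB

theorem lub_int (c σ δ : ℝ) : ∫ x in (σ - δ)..(σ + δ), (1 + c * (x - σ)) = 2 * δ := by
  have h1 : ∀ x ∈ uIcc (σ - δ) (σ + δ),
      HasDerivAt (fun x => x + c * (x - σ) ^ 2 / 2) (1 + c * (x - σ)) x := by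
    intro x _
    have h2 : HasDerivAt (fun x : ℝ => x - σ) 1 x := (hasDerivAt_id x).sub_const σ
    have h3 := (hasDerivAt_id x).add (((h2.pow 2).const_mul c).div_const 2)
    refine h3.congr_deriv ?_
    push_cast
    ring
  rw [intervalIntegral.integral_eq_sub_of_hasDerivAt h1
    (Continuous.intervalIntegrable (by fun_prop) _ _)]
  ring

/-- PACKET LUB. -/
theorem lub : S_LUB := by
  intro a b φ hb hba hφ hint
  obtain ⟨δ, hδ⟩ : ∃ δ, δ = (a - b) / 2 := ⟨_, rfl⟩
  have hδ0 : 0 < δ := by rw [hδ]; linarith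
  have hsum : b + δ < a := by rw [hδ]; linarith
  have hK : Icc (-(b + δ)) (b + δ) ⊆ Ioo (-a) a := fun x hx =>
    ⟨by linarith [hx.1], by linarith [hx.2]⟩
  obtain ⟨x₀, hx₀, hmax⟩ := isCompact_Icc.exists_isMaxOn
    (⟨0, ⟨by linarith, by linarith⟩⟩ : (Icc (-(b + δ)) (b + δ)).Nonempty) (hφ.mono hK)
  obtain ⟨m, hm⟩ : ∃ m, m = Real.exp (-(2 * φ x₀)) := ⟨_, rfl⟩
  have hm0 : 0 < m := by rw [hm]; exact Real.exp_pos _
  refine ⟨(2 * δ * m)⁻¹, by positivity, fun n σ hσ => ?_⟩
  have hσ' := abs_le.1 hσ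
  have hsub : Ioc (σ - δ) (σ + δ) ⊆ Icc (-(b + δ)) (b + δ) := fun x hx =>
    ⟨by linarith [hx.1], by linarith [hx.2]⟩
  have h1 : ∫ x in Ioc (σ - δ) (σ + δ), rhon φ n x ^ 2 ≤ wn a φ n := by
    unfold wn
    exact setIntegral_mono_set (hint n) (Eventually.of_forall fun x => by positivity)
      (HasSubset.Subset.eventuallyLE (hsub.trans hK))
  have h2 : ∫ x in Ioc (σ - δ) (σ + δ), m * Real.exp (n * σ) ^ 2 * (1 + 2 * n * (x - σ)) ≤
      ∫ x in Ioc (σ - δ) (σ + δ), rhon φ n x ^ 2 := by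
    refine setIntegral_mono_on ?_ ((hint n).mono_set (hsub.trans hK)) measurableSet_Ioc ?_
    · exact (Continuous.integrableOn_Icc (by fun_prop)).mono_set Ioc_subset_Icc_self
    · intro x hx
      have h3 : φ x ≤ φ x₀ := hmax (hsub hx)
      have h4 : m ≤ Real.exp (-(2 * φ x)) := by
        rw [hm]; exact Real.exp_le_exp.2 (by linarith)
      have h5 : 1 + 2 * n * (x - σ) ≤ Real.exp (2 * n * (x - σ)) := by
        have := Real.add_one_le_exp (2 * n * (x - σ)); linarith
      have h6 : rhon φ n x ^ 2 =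
          Real.exp (-(2 * φ x)) * Real.exp (n * σ) ^ 2 * Real.exp (2 * n * (x - σ)) := by
        unfold rhon
        rw [← Real.exp_nat_mul, ← Real.exp_nat_mul, ← Real.exp_add, ← Real.exp_add]
        congr 1
        push_cast
        ring
      rw [h6]
      have h7 : 0 < Real.exp (n * σ) ^ 2 := by positivity
      calc m * Real.exp (n * σ) ^ 2 * (1 + 2 * n * (x - σ))
          ≤ m * Real.exp (n * σ) ^ 2 * Real.exp (2 * n * (x - σ)) := by gcongr
        _ ≤ _ := by gcongr
  have h3 : ∫ x in Ioc (σ - δ) (σ + δ), m * Real.exp (n * σ) ^ 2 * (1 + 2 * n * (x - σ)) =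
      m * Real.exp (n * σ) ^ 2 * (2 * δ) := by
    rw [integral_const_mul, ← intervalIntegral.integral_of_le (by linarith), lub_int]
  rw [h3] at h2
  have h4 := h2.trans h1
  rw [inv_mul_eq_div, le_div_iff₀ (by positivity)]
  linarith

end Pool.Agent.Helper40.AB
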